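import Pool.Agent.W128.VA.Stm

/-!
Project VA: the small homogeneous pieces.
-/

set_option autoImplicit false

namespace Pool.Agent.W922.VA

open Finset Pool.Agent.W128.VA

/-- weight of a monomial -/
def ds (d : ℕ →₀ ℕ) : ℤ := d.sum fun i a => ((i : ℤ) + 1) * a

theorem wt0_eq (k : ℤ) (d : ℕ →₀ ℕ) : wt0 k d = k ^ 2 - k + ds d := rfl

theorem term_le (d : ℕ →₀ ℕ) (i : ℕ) : ((i : ℤ) + 1) * d i ≤ ds d := by
  by_cases hi : i ∈ d.support
  · exact Finset.single_le_sum (f := fun i : ℕ => ((i : ℤ) + 1) * (d i : ℤ))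
      (fun j _ => by positivity) hi
  · rw [Finsupp.notMem_support_iff.1 hi]
    simp only [Nat.cast_zero, mul_zero]
    exact Finset.sum_nonneg (fun j _ => by positivity)

theorem ds_nonneg (d : ℕ →₀ ℕ) : 0 ≤ ds d := Finset.sum_nonneg (fun j _ => by positivity)

theorem ds_zero {d : ℕ →₀ ℕ} (h : ds d = 0) : d = 0 := by
  ext i
  have h1 := term_le d i
  rw [h] at h1
  rw [Finsupp.coe_zero, Pi.zero_apply]
  by_contra hne
  have h2 : (1 : ℤ) ≤ d i := by exact_mod_cast Nat.one_le_iff_ne_zero.2 hne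
  nlinarith

theorem ds_single (i a : ℕ) : ds (Finsupp.single i a) = ((i : ℤ) + 1) * a := by
  unfold ds
  rw [Finsupp.sum_single_index]
  simp

theorem ds_one {d : ℕ →₀ ℕ} (h : ds d = 1) : d = Finsupp.single 0 1 := by
  have h0 : d = Finsupp.single 0 (d 0) := by
    ext i
    by_cases hi : i = 0
    · subst hi; simp
    · rw [Finsupp.single_apply, if_neg (Ne.symm hi)]
      have h1 := term_le d i
      rw [h] at h1
      by_contra hne
      have h2 : (1 : ℤ) ≤ d i := by exact_mod_cast Nat.one_le_iff_ne_zero.2 hne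
      have h3 : (1 : ℤ) ≤ i := by exact_mod_cast Nat.one_le_iff_ne_zero.2 hi
      nlinarith
  rw [h0, ds_single] at h
  have h2 : d 0 = 1 := by
    have : ((d 0 : ℕ) : ℤ) = 1 := by simpa using h
    exact_mod_cast this
  rw [h0, h2]

theorem ksq_nonneg (k : ℤ) : 0 ≤ k ^ 2 - k := by
  have : k ^ 2 - k = k * (k - 1) := by ring
  rw [this]
  rcases le_or_gt k 0 with h | h
  · nlinarith
  · nlinarith

theorem ksq_zero {k : ℤ} (h : k ^ 2 - k = 0) : k = 0 ∨ k = 1 := by
  have : k * (k - 1) = 0 := by linarith [h, (by ring : k * (k - 1) = k ^ 2 - k)]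
  rcases mul_eq_zero.1 this with h | h
  · exact Or.inl h
  · right; omega

theorem ksq_even (k : ℤ) : Even (k ^ 2 - k) := by
  have : k ^ 2 - k = (k - 1) * (k - 1 + 1) := by ring
  rw [this]
  exact Int.even_mul_succ_self _

theorem bas_mem {k : ℤ} {d : ℕ →₀ ℕ} {n : ℤ} (h : wt0 k d = n) :
    (Finsupp.single k (MvPolynomial.monomial d 1) : V0) ∈ gr0 n :=
  Submodule.subset_span ⟨k, d, h, rfl⟩

theorem hop0 (v : V0) (k : ℤ) : (hop 0 v) k = (2 * (k : ℂ)) • v k := by
  induction v using Finsupp.induction_linear with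
  | zero => simp
  | add f g hf hg => rw [map_add, Finsupp.add_apply, Finsupp.add_apply, smul_add, hf, hg]
  | single k' p =>
    rw [hop_single, Finsupp.single_apply, Finsupp.single_apply]
    by_cases h : k' = k
    · subst h
      rw [if_pos rfl, if_pos rfl]
      simp [hR]
    · rw [if_neg h, if_neg h, smul_zero]

theorem X_eq (i : ℕ) : (MvPolynomial.X i : R0) = MvPolynomial.monomial (Finsupp.single i 1) 1 := rfl

theorem X_sq : (MvPolynomial.X 0 ^ 2 : R0) = MvPolynomial.monomial (Finsupp.single 0 2) 1 := by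
  rw [X_eq, MvPolynomial.monomial_pow]
  simp

theorem one_eq : (1 : R0) = MvPolynomial.monomial 0 1 := rfl

theorem main : S_GR → S_SMALL := by
  intro _
  refine ⟨?_, ?_, ?_, ?_, ?_, ?_, ?_, ?_⟩
  · rw [vac1, one_eq]
    exact bas_mem (by rw [wt0_eq]; simp [ds])
  · rw [one_eq]
    exact bas_mem (by rw [wt0_eq]; simp [ds])
  · rw [X_eq]
    exact bas_mem (by rw [wt0_eq, ds_single]; norm_num)
  · rw [one_eq]
    exact bas_mem (by rw [wt0_eq]; simp [ds])
  · unfold om0
    rw [X_sq, X_eq, Finsupp.single_add, Finsupp.single_add, ← Finsupp.smul_single,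
      ← Finsupp.smul_single]
    refine Submodule.add_mem _ (Submodule.add_mem _ (Submodule.smul_mem _ _ ?_)
      (Submodule.smul_mem _ _ ?_)) (Submodule.add_mem _ ?_ ?_)
    · exact bas_mem (by rw [wt0_eq, ds_single]; norm_num)
    · exact bas_mem (by rw [wt0_eq, ds_single]; norm_num)
    · exact bas_mem (by rw [wt0_eq, ds_single]; norm_num)
    · exact bas_mem (by rw [wt0_eq, ds_single]; norm_num)
  · intro v hv
    refine Submodule.span_induction (p := fun v _ => ∃ a b : ℂ, v = a • vac1 +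
      b • Finsupp.single (1 : ℤ) (1 : R0)) ?_ ?_ ?_ ?_ hv
    · rintro _ ⟨k, d, hw, rfl⟩
      rw [wt0_eq] at hw
      have h1 := ksq_nonneg k
      have h2 := ds_nonneg d
      rw [ds_zero (d := d) (by omega)]
      rcases ksq_zero (k := k) (by omega) with rfl | rfl
      · exact ⟨1, 0, by rw [one_smul, zero_smul, add_zero, vac1]; rfl⟩
      · exact ⟨0, 1, by rw [one_smul, zero_smul, zero_add]; rfl⟩
    · exact ⟨0, 0, by simp⟩
    · rintro x y _ _ ⟨a, b, rfl⟩ ⟨a', b', rfl⟩
      exact ⟨a + a', b + b', by rw [add_smul, add_smul]; abel⟩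
    · rintro c x _ ⟨a, b, rfl⟩
      exact ⟨c * a, c * b, by rw [smul_add, smul_smul, smul_smul]⟩
  · intro v hv
    refine Submodule.span_induction (p := fun v _ => ∃ a b : ℂ,
      v = a • Finsupp.single (0 : ℤ) (MvPolynomial.X 0 : R0) +
      b • Finsupp.single (1 : ℤ) (MvPolynomial.X 0 : R0)) ?_ ?_ ?_ ?_ hv
    · rintro _ ⟨k, d, hw, rfl⟩
      rw [wt0_eq] at hw
      have h1 := ksq_nonneg k
      have h2 := ds_nonneg d
      have h3 := ksq_even k
      obtain ⟨r, hr⟩ := h3
      rw [ds_one (d := d) (by omega)]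
      rcases ksq_zero (k := k) (by omega) with rfl | rfl
      · exact ⟨1, 0, by rw [one_smul, zero_smul, add_zero]; rfl⟩
      · exact ⟨0, 1, by rw [one_smul, zero_smul, zero_add]; rfl⟩
    · exact ⟨0, 0, by simp⟩
    · rintro x y _ _ ⟨a, b, rfl⟩ ⟨a', b', rfl⟩
      exact ⟨a + a', b + b', by rw [add_smul, add_smul]; abel⟩
    · rintro c x _ ⟨a, b, rfl⟩
      exact ⟨c * a, c * b, by rw [smul_add, smul_smul, smul_smul]⟩
  · intro v hv hh
    have h1 : ∃ a : ℂ, v (-1) = a • (1 : R0) := by
      refine Submodule.span_induction (p := fun v _ => ∃ a : ℂ, v (-1) = a • (1 : R0))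
        ?_ ?_ ?_ ?_ hv
      · rintro _ ⟨k, d, hw, rfl⟩
        rw [Finsupp.single_apply]
        by_cases hk : k = -1
        · subst hk
          rw [if_pos rfl]
          rw [wt0_eq] at hw
          have h2 := ds_nonneg d
          rw [ds_zero (d := d) (by norm_num at hw; omega)]
          exact ⟨1, by rw [one_smul]; rfl⟩
        · rw [if_neg hk]
          exact ⟨0, by simp⟩
      · exact ⟨0, by simp⟩
      · rintro x y _ _ ⟨a, ha⟩ ⟨b, hb⟩
        exact ⟨a + b, by rw [Finsupp.add_apply, ha, hb, add_smul]⟩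
      · rintro c x _ ⟨a, ha⟩
        exact ⟨c * a, by rw [Finsupp.smul_apply, ha, smul_smul]⟩
    obtain ⟨a, ha⟩ := h1
    refine ⟨a, ?_⟩
    apply Finsupp.ext
    intro k
    rw [Finsupp.smul_apply, Finsupp.single_apply]
    by_cases hk : -1 = k
    · subst hk
      rw [if_pos rfl, ha]
    · rw [if_neg hk, smul_zero]
      have h2 := hop0 v k
      rw [hh, Finsupp.smul_apply] at h2
      have h3 : ((2 : ℂ) * k + 2) • v k = 0 := by
        rw [add_smul, ← h2]
        rw [← add_smul]
        norm_num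
      rcases smul_eq_zero.1 h3 with h4 | h4
      · exfalso
        apply hk
        have h5 : (k : ℂ) = ((-1 : ℤ) : ℂ) := by
          push_cast
          linear_combination h4 / 2
        exact (Int.cast_injective h5).symm
      · exact h4

end Pool.Agent.W922.VA
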